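import Mathlib

namespace Pool.Agent.H.MP_14c6b5

open Set Filter Topology Function

/-- labels, flags and pointers on the alphabet -/
structure Dat (C : Type) where
  lab : C → ℕ
  fl : C → Prop
  pt : ℕ → (ℕ → C) → C
  g : ℕ → C
  lab_pt : ∀ n r, lab (pt n r) = n
  fl_pt : ∀ n r, ¬ fl (pt n r)
  inj : ∀ n r n' r', pt n r = pt n' r' → r = r'
  lab_g : ∀ n, lab (g n) = n
  fl_g : ∀ n, fl (g n)

variable {C : Type}

theorem fuse (z : ℕ → ℕ → C) (k : ℕ → ℕ) (hk : ∀ j, k j < k (j + 1))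
    (hz : ∀ j i, i < k j → z (j + 1) i = z j i) : ∃ w : ℕ → C, ∀ j i, i < k j → w i = z j i := by
  have hm : StrictMono k := strictMono_nat_of_lt_succ hk
  have h1 : ∀ j i, i < k j → ∀ n, z (j + n) i = z j i := by
    intro j i hi n
    induction n with
    | zero => rfl
    | succ n ih => rw [← add_assoc, hz _ _ (hi.trans_le (hm.monotone (Nat.le_add_right _ _))), ih]
  refine ⟨fun i => z (i + 1) i, fun j i hi => ?_⟩
  have h2 := h1 j i hi (i + 1)
  have h3 := h1 (i + 1) i ((Nat.lt_succ_self i).trans_le (hm.le_apply)) j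
  rw [add_comm] at h3
  exact h3.symm.trans h2

namespace Dat
variable (D : Dat C)

/-- special branches -/
def S (r : ℕ → C) : Prop :=
  (∀ n, ∃ m, ∀ i, m ≤ i → n ≤ D.lab (r i)) ∧ ∀ n, ∃ i, n ≤ i ∧ D.fl (r i)

/-- the node pointing to `r` at level `k` -/
def T (r : ℕ → C) (k : ℕ) : ℕ → C := update r k (D.pt (D.lab (r k) + 1) r)

/-- the node `z` restricted to `k + 1` points to `r` -/
def Pt (r z : ℕ → C) (k : ℕ) : Prop := D.S r ∧ D.fl (r k) ∧ ∀ i ≤ k, z i = D.T r k i

theorem Pt_uniq {r r' z : ℕ → C} {k : ℕ} (h : D.Pt r z k) (h' : D.Pt r' z k) : r = r' := by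
  have h1 := h.2.2 k le_rfl
  have h2 := h'.2.2 k le_rfl
  simp only [T, update_self] at h1 h2
  exact D.inj _ _ _ _ (h1.symm.trans h2)

theorem Pt_lt {r z : ℕ → C} {k : ℕ} (h : D.Pt r z k) {i : ℕ} (hi : i < k) : z i = r i := by
  rw [h.2.2 i hi.le, T, update_of_ne hi.ne]

theorem Pt_congr {r z z' : ℕ → C} {k : ℕ} (hz : ∀ i ≤ k, z i = z' i) :
    D.Pt r z k ↔ D.Pt r z' k :=
  and_congr_right fun _ => and_congr_right fun _ =>
    forall_congr' fun i => forall_congr' fun hi => by rw [hz i hi]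

theorem dich (col : (ℕ → C) → ℕ → Prop)
    (hcol : ∀ z z' k, (∀ i ≤ k, z i = z' i) → col z k → col z' k) :
    (∃ (x : ℕ → C) (n k0 : ℕ), ∀ i, k0 ≤ i → D.lab (x i) = n + 1 ∧ col x i) ∨
      ∃ r, D.S r ∧ ∀ k, D.fl (r k) → ¬ col (D.T r k) k := by
  by_cases h : ∃ (z0 : ℕ → C) (k0 n : ℕ), ∀ (z : ℕ → C) (k : ℕ), k0 ≤ k → (∀ i < k0, z i = z0 i) →
      (∀ i, k0 ≤ i → i < k → D.lab (z i) = n + 1 ∧ ¬ D.fl (z i)) →
      ∃ c, D.lab c = n + 1 ∧ ¬ D.fl c ∧ col (update z k c) k
  · left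
    obtain ⟨z0, k0, n, h⟩ := h
    have : Nonempty C := ⟨D.g 0⟩
    choose! c hc using h
    let z : ℕ → ℕ → C := fun j => Nat.rec z0 (fun j w => update w (k0 + j) (c w (k0 + j))) j
    have hz : ∀ j, z (j + 1) = update (z j) (k0 + j) (c (z j) (k0 + j)) := fun j => rfl
    have hi : ∀ j, (∀ i < k0, z j i = z0 i) ∧
        ∀ i, k0 ≤ i → i < k0 + j → D.lab (z j i) = n + 1 ∧ ¬ D.fl (z j i) := by
      intro j
      induction j with
      | zero => exact ⟨fun _ _ => rfl, fun i h1 h2 => by omega⟩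
      | succ j ih =>
        refine ⟨fun i h1 => ?_, fun i h1 h2 => ?_⟩
        · rw [hz, update_of_ne (by omega)]
          exact ih.1 i h1
        · rw [hz]
          by_cases e : i = k0 + j
          · subst e
            rw [update_self]
            have := hc (z j) (k0 + j) (by omega) ih.1 ih.2
            exact ⟨this.1, this.2.1⟩
          · rw [update_of_ne e]
            exact ih.2 i h1 (by omega)
    obtain ⟨w, hw⟩ := fuse z (fun j => k0 + j) (fun j => by omega)
      (fun j i h1 => by rw [hz, update_of_ne h1.ne])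
    refine ⟨w, n, k0, fun i h1 => ?_⟩
    obtain ⟨j, rfl⟩ := Nat.exists_eq_add_of_le h1
    refine ⟨?_, ?_⟩
    · rw [hw (j + 1) _ (by omega)]
      exact ((hi (j + 1)).2 _ h1 (by omega)).1
    · refine hcol _ _ _ (fun i h2 => ?_) (hc (z j) (k0 + j) h1 (hi j).1 (hi j).2).2.2
      rw [hw (j + 1) i (by omega), hz]
  · right
    push Not at h
    choose Z K h1 h2 h3 h4 using h
    let s : ℕ → (ℕ → C) × ℕ := fun j => Nat.rec (fun _ => D.g 0, 0)
      (fun j p => (update (Z p.1 p.2 j) (K p.1 p.2 j) (D.g j), K p.1 p.2 j + 1)) j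
    let k' : ℕ → ℕ := fun j => K (s j).1 (s j).2 j
    have e1 : ∀ j, (s (j + 1)).1 = update (Z (s j).1 (s j).2 j) (k' j) (D.g j) := fun j => rfl
    have e2 : ∀ j, (s (j + 1)).2 = k' j + 1 := fun j => rfl
    have e3 : ∀ j, (s j).2 ≤ k' j := fun j => h1 _ _ _
    have hk : ∀ j, (s j).2 < (s (j + 1)).2 := fun j => by
      rw [e2]
      exact Nat.lt_succ_of_le (e3 j)
    have hm : StrictMono fun j => (s j).2 := strictMono_nat_of_lt_succ hk
    obtain ⟨r, hr⟩ := fuse (fun j => (s j).1) (fun j => (s j).2) hk (fun j i hi => by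
      show (s (j + 1)).1 i = _
      rw [e1, update_of_ne (hi.trans_le (e3 j)).ne]
      exact h2 _ _ _ i hi)
    have hg : ∀ j, r (k' j) = D.g j := fun j => by
      rw [hr (j + 1) _ (by rw [e2]; omega), e1, update_self]
    have hl : ∀ j i, i < k' j → r i = Z (s j).1 (s j).2 j i := fun j i hi => by
      rw [hr (j + 1) _ (by rw [e2]; omega), e1, update_of_ne hi.ne]
    have hcase : ∀ i, ∃ j, (s j).2 ≤ i ∧ i ≤ k' j := by
      intro i
      have hex : ∃ j, i < (s (j + 1)).2 := ⟨i, (Nat.lt_succ_self i).trans_le hm.le_apply⟩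
      refine ⟨Nat.find hex, ?_, ?_⟩
      · rcases e : Nat.find hex with _ | j
        · exact Nat.zero_le _
        · exact not_lt.1 (Nat.find_min hex (m := j) (by omega))
      · have := Nat.find_spec hex
        rw [e2] at this
        omega
    refine ⟨r, ⟨fun n => ⟨(s n).2, fun i hi => ?_⟩, fun n => ⟨k' n, ?_, ?_⟩⟩, fun k hk => ?_⟩
    · obtain ⟨j, a1, a2⟩ := hcase i
      have hj : n ≤ j := by
        by_contra hn
        have := hm.monotone (show j + 1 ≤ n by omega)
        simp only [e2] at this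
        omega
      rcases a2.lt_or_eq with a3 | a3
      · rw [hl j i a3, (h3 _ _ _ i a1 a3).1]
        omega
      · rw [a3, hg, D.lab_g]
        exact hj
    · exact hm.le_apply.trans (e3 n)
    · rw [hg]
      exact D.fl_g n
    · obtain ⟨j, a1, a2⟩ := hcase k
      rcases a2.lt_or_eq with a3 | a3
      · rw [hl j k a3] at hk
        exact absurd hk (h3 _ _ _ k a1 a3).2
      · subst a3
        intro hc
        refine h4 (s j).1 (s j).2 j (D.pt (j + 1) r) (D.lab_pt _ _) (D.fl_pt _ _)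
          (hcol _ _ _ (fun i hi => ?_) hc)
        rcases hi.lt_or_eq with a3 | a3
        · rw [T, update_of_ne a3.ne, update_of_ne a3.ne, hl j i a3]
        · subst a3
          rw [T, update_self, update_self, hg, D.lab_g]

end Dat

end Pool.Agent.H.MP_14c6b5
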