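import Pool.Agent.H.MP_14c6b5.A

namespace Pool.Agent.H.MP_14c6b5

open Set Filter Topology Function

variable {C : Type}

/-- cone -/
def cn (z : ℕ → C) (m : ℕ) : Set (ℕ → C) := {p | ∀ i < m, p i = z i}

namespace Dat
variable (D : Dat C)

/-- admissible levels -/
def Jk (r : ℕ → C) (k : ℕ) : Set ℕ := {j | k < j ∧ D.fl (r j) ∧ ∀ i, j ≤ i → k ≤ D.lab (r i)}

/-- tail of the cones pointing to `r` -/
def tn (r : ℕ → C) (k : ℕ) : Set (ℕ → C) := {r} ∪ ⋃ j ∈ D.Jk r k, cn (D.T r j) (j + 1)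

/-- the members of the family -/
def B (z : ℕ → C) (k : ℕ) : Set (ℕ → C) := cn z (k + 1) ∪ {p | ∃ r, D.Pt r z k ∧ p ∈ D.tn r k}

theorem B_congr {z z' : ℕ → C} {k : ℕ} (hz : ∀ i ≤ k, z i = z' i) : D.B z k = D.B z' k := by
  unfold B
  congr 1
  · ext p
    exact forall_congr' fun i => forall_congr' fun hi => by rw [hz i (by omega)]
  · ext p
    exact exists_congr fun r => and_congr_left fun _ => D.Pt_congr hz

theorem tn_sub {r : ℕ → C} {k : ℕ} : D.tn r k ⊆ cn r (k + 1) := by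
  rintro p (rfl | hp)
  · exact fun _ _ => rfl
  · simp only [mem_iUnion] at hp
    obtain ⟨j, hj, hp⟩ := hp
    intro i hi
    have := hj.1
    rw [hp i (by omega), T, update_of_ne (by omega)]

theorem B_sub (z : ℕ → C) (k : ℕ) : D.B z k ⊆ cn z k := by
  rintro p (hp | ⟨r, hr, hp⟩) i hi
  · exact hp i (by omega)
  · rw [D.tn_sub hp i (by omega), D.Pt_lt hr hi]

theorem not_sub {z x : ℕ → C} {k m : ℕ} (h : D.B z k ⊆ cn x m) : m ≤ k + 1 := by
  by_contra hn
  have h1 : ∀ n, update z (k + 1) (D.g n) (k + 1) = x (k + 1) := fun n =>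
    h (Or.inl fun i hi => update_of_ne (by omega) _ _) (k + 1) (by omega)
  have h2 := congrArg D.lab ((h1 0).trans (h1 1).symm)
  simp [D.lab_g] at h2

theorem PtT {r : ℕ → C} (hr : D.S r) {k : ℕ} (hk : D.fl (r k)) : D.Pt r (D.T r k) k :=
  ⟨hr, hk, fun _ _ => rfl⟩

theorem BT {r : ℕ → C} (hr : D.S r) {k : ℕ} (hk : D.fl (r k)) :
    D.B (D.T r k) k = cn (D.T r k) (k + 1) ∪ D.tn r k := by
  unfold B
  congr 1
  ext p
  exact ⟨fun ⟨r', h1, h2⟩ => D.Pt_uniq h1 (D.PtT hr hk) ▸ h2, fun h => ⟨r, D.PtT hr hk, h⟩⟩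

theorem deep {U : Set (ℕ → C)} {z x : ℕ → C} {k m : ℕ} (e : U = D.B z k) (hm : k + 2 ≤ m)
    (h : cn x m ⊆ U) : D.B x m ≠ U ∧ x ∈ D.B x m ∧ D.B x m ⊆ U := by
  refine ⟨fun e' => ?_, Or.inl fun _ _ => rfl, (D.B_sub x m).trans h⟩
  have := D.not_sub (z := z) (k := k) (x := x) (m := m) (by rw [← e, ← e']; exact D.B_sub x m)
  omega

theorem fill (z : ℕ → C) (k : ℕ) (x : ℕ → C) (hx : x ∈ D.B z k) :
    ∃ z' k', D.B z' k' ≠ D.B z k ∧ x ∈ D.B z' k' ∧ D.B z' k' ⊆ D.B z k := by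
  rcases hx with hx | ⟨r, hr, rfl | hx⟩
  · exact ⟨x, k + 2, D.deep rfl le_rfl fun p hp =>
      Or.inl fun i hi => (hp i (by omega)).trans (hx i hi)⟩
  · obtain ⟨m, hm⟩ := hr.1.1 k
    obtain ⟨j, hj, hf⟩ := hr.1.2 (max m (k + 2))
    have h1 := le_max_left m (k + 2)
    have h2 := le_max_right m (k + 2)
    refine ⟨D.T x j, j, fun e => ?_, ?_, ?_⟩
    · have := D.not_sub (z := z) (k := k) (x := D.T x j) (m := j) (by rw [← e]; exact D.B_sub _ _)
      omega
    · rw [D.BT hr.1 hf]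
      exact Or.inr (Or.inl rfl)
    · rw [D.BT hr.1 hf]
      rintro p (hp | rfl | hp)
      · refine Or.inr ⟨x, hr, Or.inr (mem_iUnion₂.2 ⟨j, ⟨by omega, hf, fun i hi => ?_⟩, hp⟩)⟩
        exact hm i (by omega)
      · exact Or.inr ⟨p, hr, Or.inl rfl⟩
      · obtain ⟨j', hj', hp⟩ := mem_iUnion₂.1 hp
        have := hj'.1
        refine Or.inr ⟨x, hr, Or.inr (mem_iUnion₂.2 ⟨j', ⟨by omega, hj'.2.1, fun i hi => ?_⟩, hp⟩)⟩
        exact hm i (by omega)
  · obtain ⟨j, hj, hp⟩ := mem_iUnion₂.1 hx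
    have := hj.1
    exact ⟨x, j + 1, D.deep rfl (by omega) fun p hp' => Or.inr ⟨r, hr, Or.inr
      (mem_iUnion₂.2 ⟨j, hj, fun i hi => (hp' i hi).trans (hp i hi)⟩)⟩⟩

theorem closed [TopologicalSpace C] [T2Space C] (z : ℕ → C) (k : ℕ) : IsClosed (D.B z k) := by
  have hc : ∀ (z : ℕ → C) m, IsClosed (cn z m) := by
    intro z m
    simp only [cn, ofPred_forall]
    exact isClosed_iInter fun i => isClosed_iInter fun _ =>
      isClosed_eq (continuous_apply i) continuous_const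
  refine (hc _ _).union ?_
  by_cases h : ∃ r, D.Pt r z k
  · obtain ⟨r, hr⟩ := h
    have e : {p | ∃ r, D.Pt r z k ∧ p ∈ D.tn r k} =
        ⋂ n, (cn r n ∪ ⋃ j ∈ D.Jk r k ∩ Iio n, cn (D.T r j) (j + 1)) := by
      ext p
      rw [mem_iInter]
      constructor
      · rintro ⟨r', h1, h2⟩ n
        obtain rfl := D.Pt_uniq h1 hr
        rcases h2 with rfl | h2
        · exact Or.inl fun _ _ => rfl
        · obtain ⟨j, hj, hp⟩ := mem_iUnion₂.1 h2
          by_cases hn : j < n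
          · exact Or.inr (mem_iUnion₂.2 ⟨j, ⟨hj, hn⟩, hp⟩)
          · exact Or.inl fun i hi => by rw [hp i (by omega), T, update_of_ne (by omega)]
      · intro hp
        refine ⟨r, hr, ?_⟩
        by_cases e : p = r
        · exact Or.inl e
        · obtain ⟨i, hi⟩ := Function.ne_iff.1 e
          rcases hp (i + 1) with h1 | h1
          · exact absurd (h1 i (by omega)) hi
          · obtain ⟨j, hj, hp⟩ := mem_iUnion₂.1 h1
            exact Or.inr (mem_iUnion₂.2 ⟨j, hj.1, hp⟩)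
    rw [e]
    exact isClosed_iInter fun n => (hc _ _).union
      (((finite_Iio n).subset inter_subset_right).isClosed_biUnion fun _ _ => hc _ _)
  · have e : {p | ∃ r, D.Pt r z k ∧ p ∈ D.tn r k} = ∅ :=
      eq_empty_of_forall_notMem fun p ⟨r, hr, _⟩ => h ⟨r, hr⟩
    rw [e]
    exact isClosed_empty

theorem irr (c : Set (ℕ → C) → Prop)
    (h0 : ∀ z k, ∀ x ∈ D.B z k, ∃ z' k', ¬ c (D.B z' k') ∧ x ∈ D.B z' k' ∧ D.B z' k' ⊆ D.B z k)
    (h1 : ∀ z k, ∀ x ∈ D.B z k, ∃ z' k', c (D.B z' k') ∧ x ∈ D.B z' k' ∧ D.B z' k' ⊆ D.B z k) :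
    False := by
  rcases D.dich (fun z k => c (D.B z k)) (fun z z' k hz h => D.B_congr hz ▸ h) with
    ⟨x, n, k0, hx⟩ | ⟨r, hr, h⟩
  · obtain ⟨z, k, a1, a2, a3⟩ := h0 x (k0 + n + 2) x (Or.inl fun _ _ => rfl)
    have hk := D.not_sub (a3.trans (D.B_sub _ _))
    rcases a2 with a2 | ⟨r, hr, rfl | a2⟩
    · rw [D.B_congr (z' := x) fun i hi => (a2 i (by omega)).symm] at a1
      exact a1 (hx k (by omega)).2
    · obtain ⟨m, hm⟩ := hr.1.1 (n + 2)
      have := hm (max m k0) (le_max_left _ _)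
      rw [(hx _ (le_max_right _ _)).1] at this
      omega
    · obtain ⟨j, hj, hp⟩ := mem_iUnion₂.1 a2
      have b1 := hj.1
      have b2 := hj.2.2 j le_rfl
      have b3 := (hx j (by omega)).1
      rw [hp j (by omega), T, update_self, D.lab_pt] at b3
      omega
  · obtain ⟨k, -, hk⟩ := hr.2 0
    obtain ⟨z, j, a1, a2, a3⟩ := h1 (D.T r k) k r (by
      rw [D.BT hr hk]
      exact Or.inr (Or.inl rfl))
    have key : ∀ p ∈ D.B z j, p = r ∨ ∃ i, D.fl (r i) ∧ p ∈ cn (D.T r i) (i + 1) := by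
      intro p hp
      have := a3 hp
      rw [D.BT hr hk] at this
      rcases this with h | h | h
      · exact Or.inr ⟨k, hk, h⟩
      · exact Or.inl h
      · obtain ⟨i, hi, h⟩ := mem_iUnion₂.1 h
        exact Or.inr ⟨i, hi.2.1, h⟩
    have key2 : ∀ m, ¬ cn r m ⊆ D.B z j := by
      intro m hm
      rcases key (update r m (D.g (D.lab (r m) + 1)))
        (hm fun i hi => update_of_ne hi.ne _ _) with e | ⟨i, hi, e⟩
      · have := congrArg D.lab (congrFun e m)
        simp [D.lab_g] at this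
      · have e1 := e i (by omega)
        rw [T, update_self] at e1
        refine D.fl_pt (D.lab (r i) + 1) r ?_
        rw [← e1]
        by_cases e2 : i = m
        · subst e2
          rw [update_self]
          exact D.fl_g _
        · rw [update_of_ne e2]
          exact hi
    rcases a2 with a2 | ⟨r', hr', e | a2⟩
    · exact key2 (j + 1) fun p hp => Or.inl fun i hi => (hp i hi).trans (a2 i hi)
    · obtain rfl : r = r' := e
      rw [D.B_congr hr'.2.2] at a1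
      exact h j hr'.2.1 a1
    · obtain ⟨i, hi, hp⟩ := mem_iUnion₂.1 a2
      exact key2 (i + 1) fun p hp' => Or.inr ⟨r', hr', Or.inr
        (mem_iUnion₂.2 ⟨i, hi, fun l hl => (hp' l hl).trans (hp l hl)⟩)⟩

end Dat

/-- currying homeomorphism -/
noncomputable def φ : (ℕ → ℕ → ℕ) ≃ₜ (ℕ → ℕ) :=
  ((Homeomorph.piCongrLeft (Y := fun _ : ℕ × ℕ => ℕ) Nat.pairEquiv.symm).trans
    Homeomorph.piCurry).symm

/-- data on Baire space -/
noncomputable def D0 : Dat (ℕ → ℕ) where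
  lab c := c 0
  fl c := c 1 = 1
  pt n r := fun i => if i = 0 then n else if i = 1 then 0 else φ r (i - 2)
  g n := fun i => if i = 0 then n else 1
  lab_pt := by simp
  fl_pt := by simp
  inj n r n' r' h := φ.injective (funext fun i => by simpa using congrFun h (i + 2))
  lab_g := by simp
  fl_g := by simp

end Pool.Agent.H.MP_14c6b5
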