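import Pool.Agent.H.MP_14c6b5.A

namespace Pool.Agent.H.MP_14c6b5

open Set Filter Topology Function TopologicalSpace

variable {C : Type} [LinearOrder C]

/-- the points: a branch and a position in its block -/
structure P (D : Dat C) where
  br : ℕ → C
  q : ℝ
  nn : 0 ≤ q
  z : ¬ D.S br → q = 0

variable {D : Dat C}

omit [LinearOrder C] in
theorem P.ext' {p p' : P D} (h1 : p.br = p'.br) (h2 : p.q = p'.q) : p = p' := by
  cases p
  cases p'
  simp_all

noncomputable instance : LinearOrder (P D) :=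
  LinearOrder.lift' (fun p => toLex (toLex p.br, p.q)) fun p p' h => by
    have h1 := toLex.injective h
    exact P.ext' (toLex.injective (congrArg Prod.fst h1)) (congrArg Prod.snd h1)

noncomputable instance : TopologicalSpace (P D) := Preorder.topology _
instance : OrderTopology (P D) := ⟨rfl⟩

/-- departure -/
def Dp (x y : ℕ → C) (d : ℕ) : Prop := (∀ i < d, x i = y i) ∧ x d < y d

theorem lt_iff {p p' : P D} :
    p < p' ↔ (∃ d, Dp p.br p'.br d) ∨ (p.br = p'.br ∧ p.q < p'.q) := by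
  show toLex (toLex p.br, p.q) < toLex (toLex p'.br, p'.q) ↔ _
  rw [Prod.Lex.toLex_lt_toLex]
  exact or_congr Iff.rfl (and_congr_left fun _ => toLex.injective.eq_iff)

/-- base point of a branch -/
def o (D : Dat C) (z : ℕ → C) : P D := ⟨z, 0, le_rfl, fun _ => rfl⟩

/-- point in a block -/
def b {r : ℕ → C} (hr : D.S r) (a : ℝ) (ha : 0 ≤ a) : P D := ⟨r, a, ha, fun h => absurd hr h⟩

/-- cone -/
def cp (D : Dat C) (z : ℕ → C) (m : ℕ) : Set (P D) := {p | ∀ i < m, p.br i = z i}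

/-- small left neighbourhood -/
def tp (D : Dat C) (r : ℕ → C) (k : ℕ) : Set (P D) :=
  {p | ∃ m, k < m ∧ (∀ i, m ≤ i → k ≤ D.lab (r i)) ∧ p ∈ cp D r m ∧
    ((∃ d, Dp p.br r d) ∨ (p.br = r ∧ p.q < 1 / ((k : ℝ) + 1)))}

/-- basic sets -/
def BB (D : Dat C) (z : ℕ → C) (k : ℕ) : Set (P D) :=
  cp D z (k + 1) ∪ {p | ∃ r, D.Pt r z k ∧ p ∈ tp D r k}

/-- the base -/
def bs (D : Dat C) : Set (Set (P D)) :=
  {U | ∃ z k, U = BB D z k} ∪ {U | ∃ p p' : P D, p.br = p'.br ∧ U = Ioo p p'}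

theorem btw {p p' x : P D} (h : p.br = p'.br) (hx : x ∈ Ioo p p') :
    x.br = p.br ∧ p.q < x.q ∧ x.q < p'.q := by
  rcases lt_iff.1 hx.1 with ⟨d, h1, h2⟩ | h1 <;> rcases lt_iff.1 hx.2 with ⟨d', h3, h4⟩ | h3
  · rw [← h] at h3 h4
    rcases lt_trichotomy d d' with e | e | e
    · exact absurd (h3 d e) h2.ne'
    · subst e
      exact absurd h2 h4.not_gt
    · exact absurd (h1 d' e) h4.ne'
  · rw [h, h3.1] at h2
    exact absurd h2 (lt_irrefl _)
  · rw [← h, h1.1] at h4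
    exact absurd h4 (lt_irrefl _)
  · exact ⟨h1.1.symm, h1.2, h3.2⟩

theorem cp_open [NoMinOrder C] [NoMaxOrder C] (z : ℕ → C) (m : ℕ) : IsOpen (cp D z m) := by
  rw [isOpen_iff_mem_nhds]
  intro p hp
  obtain ⟨c1, h1⟩ := exists_lt (p.br m)
  obtain ⟨c2, h2⟩ := exists_gt (p.br m)
  have a1 : o D (update p.br m c1) < p :=
    lt_iff.2 (Or.inl ⟨m, fun i hi => update_of_ne hi.ne _ _, by simpa [o] using h1⟩)
  have a2 : p < o D (update p.br m c2) :=
    lt_iff.2 (Or.inl ⟨m, fun i hi => (update_of_ne hi.ne _ _).symm, by simpa [o] using h2⟩)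
  refine mem_of_superset (Ioo_mem_nhds a1 a2) fun x hx => ?_
  by_contra hn
  have hex : ∃ i, i < m ∧ x.br i ≠ p.br i := by
    by_contra h
    push Not at h
    exact hn fun i hi => (h i hi).trans (hp i hi)
  classical
  have b1 := Nat.find_spec hex
  have b2 : ∀ i < Nat.find hex, x.br i = p.br i := fun i hi => by
    have := Nat.find_min hex hi
    push Not at this
    exact this (hi.trans b1.1)
  rcases b1.2.lt_or_gt with e | e
  · refine hx.1.not_gt (lt_iff.2 (Or.inl ⟨Nat.find hex, fun i hi => ?_, ?_⟩))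
    · exact (b2 i hi).trans (update_of_ne (hi.trans b1.1).ne _ _).symm
    · exact e.trans_eq (update_of_ne b1.1.ne _ _).symm
  · refine hx.2.not_gt (lt_iff.2 (Or.inl ⟨Nat.find hex, fun i hi => ?_, ?_⟩))
    · exact (update_of_ne (hi.trans b1.1).ne _ _).trans (b2 i hi).symm
    · show update p.br m c2 (Nat.find hex) < _
      rw [update_of_ne b1.1.ne]
      exact e

theorem BB_open [NoMinOrder C] [NoMaxOrder C] (z : ℕ → C) (k : ℕ) : IsOpen (BB D z k) := by
  refine (cp_open _ _).union ?_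
  rw [isOpen_iff_mem_nhds]
  rintro p ⟨r, hr, m, h1, h2, h3, h4⟩
  have h5 : p < b hr.1 (1 / ((k : ℝ) + 1)) (by positivity) := lt_iff.2 h4
  filter_upwards [(cp_open r m).mem_nhds h3, Iio_mem_nhds h5] with x a1 a2
  exact ⟨r, hr, m, h1, h2, a1, lt_iff.1 a2⟩

omit [LinearOrder C] in
theorem cp_not {z x : ℕ → C} {k m : ℕ} (h : cp D z k ⊆ cp D x m) : m ≤ k := by
  by_contra hn
  have h1 : ∀ n, update z k (D.g n) k = x k := fun n =>
    h (a := o D (update z k (D.g n))) (fun i hi => update_of_ne hi.ne _ _) k (by omega)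
  have h2 := congrArg D.lab ((h1 0).trans (h1 1).symm)
  simp [D.lab_g] at h2

theorem BB_sub (z : ℕ → C) (k : ℕ) : BB D z k ⊆ cp D z k := by
  rintro p (hp | ⟨r, hr, m, h1, -, hp, -⟩) i hi
  · exact hp i (by omega)
  · rw [hp i (by omega), D.Pt_lt hr hi]

theorem BB_congr {z z' : ℕ → C} {k : ℕ} (hz : ∀ i ≤ k, z i = z' i) : BB D z k = BB D z' k := by
  unfold BB
  congr 1
  · ext p
    exact forall_congr' fun i => forall_congr' fun hi => by rw [hz i (by omega)]
  · ext p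
    exact exists_congr fun r => and_congr_left fun _ => D.Pt_congr hz

theorem basis [NoMinOrder C] [NoMaxOrder C] (hl : ∀ c c', D.lab c' < D.lab c → c < c') :
    IsTopologicalBasis (bs D) := by
  refine isTopologicalBasis_of_isOpen_of_nhds ?_ ?_
  · rintro _ (⟨z, k, rfl⟩ | ⟨p, p', -, rfl⟩)
    · exact BB_open z k
    · exact isOpen_Ioo
  intro p u hp hu
  obtain ⟨c1, h1⟩ := exists_lt (p.br 0)
  obtain ⟨c2, h2⟩ := exists_gt (p.br 0)
  obtain ⟨l, h, ⟨hlp, hph⟩, hs⟩ := (mem_nhds_iff_exists_Ioo_subset'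
    ⟨o D (update p.br 0 c1), lt_iff.2 (Or.inl ⟨0, fun i hi => by omega, by simpa [o] using h1⟩)⟩
    ⟨o D (update p.br 0 c2), lt_iff.2 (Or.inl ⟨0, fun i hi => by omega, by simpa [o] using h2⟩)⟩).1
    (hu.mem_nhds hp)
  have L1 : ∀ d, Dp l.br p.br d → ∀ x ∈ cp D p.br (d + 1), l < x := fun d hd x hx =>
    lt_iff.2 (Or.inl ⟨d, fun i hi => (hd.1 i hi).trans (hx i (by omega)).symm,
      hd.2.trans_eq (hx d (by omega)).symm⟩)
  have L2 : ∀ d, Dp p.br h.br d → ∀ x ∈ cp D p.br (d + 1), x < h := fun d hd x hx =>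
    lt_iff.2 (Or.inl ⟨d, fun i hi => (hx i (by omega)).trans (hd.1 i hi),
      (hx d (by omega)).trans_lt hd.2⟩)
  by_cases hS : D.S p.br
  · obtain ⟨h', e1, e2, e3⟩ : ∃ h' : P D, h'.br = p.br ∧ p.q < h'.q ∧ h' ≤ h := by
      rcases lt_iff.1 hph with ⟨d, hd⟩ | hd
      · exact ⟨b hS (p.q + 1) (by linarith [p.nn]), rfl, by simp [b],
          (L2 d hd (b hS (p.q + 1) (by linarith [p.nn])) fun _ _ => rfl).le⟩
      · exact ⟨h, hd.1.symm, hd.2, le_rfl⟩
    have hph' : p < h' := lt_iff.2 (Or.inr ⟨e1.symm, e2⟩)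
    rcases lt_iff.1 hlp with ⟨d, hd⟩ | hd
    · rcases p.nn.lt_or_eq with hq | hq
      · refine ⟨Ioo (o D p.br) h', Or.inr ⟨o D p.br, h', e1.symm, rfl⟩,
          ⟨lt_iff.2 (Or.inr ⟨rfl, hq⟩), hph'⟩, Subset.trans ?_ hs⟩
        exact Ioo_subset_Ioo (L1 d hd (o D p.br) fun _ _ => rfl).le e3
      · obtain ⟨n, hn⟩ := exists_nat_one_div_lt (show 0 < h'.q by linarith)
        obtain ⟨k, hk, hf⟩ := hS.2 (max n (d + 1))
        have k1 := le_max_left n (d + 1)
        have k2 := le_max_right n (d + 1)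
        have hPt : D.Pt p.br (D.T p.br k) k := ⟨hS, hf, fun _ _ => rfl⟩
        obtain ⟨m, hm⟩ := hS.1 k
        refine ⟨BB D (D.T p.br k) k, Or.inl ⟨_, _, rfl⟩, Or.inr ⟨p.br, hPt, max m (k + 1),
          by omega, fun i hi => hm i (by omega), fun _ _ => rfl, Or.inr ⟨rfl, ?_⟩⟩,
          fun x hx => hs ⟨?_, lt_of_lt_of_le ?_ e3⟩⟩
        · rw [← hq]
          positivity
        · exact L1 d hd x fun i hi => (BB_sub _ _ hx i (by omega)).trans (D.Pt_lt hPt (by omega))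
        · rw [lt_iff, e1]
          rcases hx with hx | ⟨r, hr, m', -, -, -, hx⟩
          · refine Or.inl ⟨k, fun i hi => (hx i (by omega)).trans (D.Pt_lt hPt hi), ?_⟩
            rw [hx k (by omega), Dat.T, update_self]
            exact hl _ _ (by rw [D.lab_pt]; omega)
          · obtain rfl := D.Pt_uniq hr hPt
            refine hx.imp_right fun e => ⟨e.1, e.2.trans (lt_of_le_of_lt ?_ hn)⟩
            have : (n : ℝ) ≤ k := by exact_mod_cast k1.trans hk
            gcongr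
    · exact ⟨Ioo l h', Or.inr ⟨_, _, hd.1.trans e1.symm, rfl⟩, ⟨hlp, hph'⟩,
        (Ioo_subset_Ioo le_rfl e3).trans hs⟩
  · have hq := p.z hS
    obtain ⟨d, hd⟩ : ∃ d, Dp l.br p.br d :=
      (lt_iff.1 hlp).resolve_right fun e => by linarith [l.nn, e.2]
    obtain ⟨d', hd'⟩ : ∃ d, Dp p.br h.br d :=
      (lt_iff.1 hph).resolve_right fun e => by linarith [h.z (e.1 ▸ hS), e.2]
    refine ⟨BB D p.br (d + d' + 1), Or.inl ⟨_, _, rfl⟩, Or.inl fun _ _ => rfl,
      fun x hx => hs ⟨?_, ?_⟩⟩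
    · exact L1 d hd x fun i hi => BB_sub _ _ hx i (by omega)
    · exact L2 d' hd' x fun i hi => BB_sub _ _ hx i (by omega)

theorem crowded [NoMinOrder C] [NoMaxOrder C] (hl : ∀ c c', D.lab c' < D.lab c → c < c')
    (x : P D) : ¬ IsOpen ({x} : Set (P D)) := by
  intro hx
  obtain ⟨v, hv, h1, h2⟩ := (basis hl).exists_subset_of_mem_open (mem_singleton x) hx
  rcases hv with ⟨z, k, rfl⟩ | ⟨p, p', e, rfl⟩
  · have := cp_not (D := D) (z := z) (k := k + 1) (x := x.br) (m := k + 2) fun y hy i _ => by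
      rw [show y = x from h2 (Or.inl hy)]
    omega
  · obtain ⟨a1, a2, a3⟩ := btw e h1
    have hS : D.S x.br := by
      by_contra h
      linarith [x.z h, p.nn]
    have : b hS ((p.q + x.q) / 2) (by linarith [p.nn]) = x := h2
      ⟨lt_iff.2 (Or.inr ⟨a1.symm, by simp only [b]; linarith⟩),
        lt_iff.2 (Or.inr ⟨a1.trans e, by simp only [b]; linarith⟩)⟩
    have := congrArg P.q this
    simp only [b] at this
    linarith

theorem nores [NoMinOrder C] [NoMaxOrder C] (hl : ∀ c c', D.lab c' < D.lab c → c < c')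
    (B₀ : Set (Set (P D))) (hs : B₀ ⊆ bs D) (h0 : IsTopologicalBasis B₀)
    (h1 : IsTopologicalBasis (bs D \ B₀)) : False := by
  rcases D.dich (fun z k => BB D z k ∉ B₀) (fun z z' k hz h => BB_congr (D := D) hz ▸ h) with
    ⟨x, n, k0, hx⟩ | ⟨r, hr, h⟩
  · have hS : ¬ D.S x := fun hr => by
      obtain ⟨m, hm⟩ := hr.1 (n + 2)
      have := hm (max m k0) (le_max_left _ _)
      rw [(hx _ (le_max_right _ _)).1] at this
      omega
    obtain ⟨v, hv, a2, a3⟩ := h0.exists_subset_of_mem_open (a := o D x)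
      (u := cp D x (k0 + n + 3)) (fun _ _ => rfl) (cp_open _ _)
    rcases hs hv with ⟨z, k, rfl⟩ | ⟨p, p', e, rfl⟩
    · have hk := cp_not (subset_union_left.trans a3)
      rcases a2 with a2 | ⟨r, hr, m, b1, b2, b3, ⟨d, b4⟩ | b4⟩
      · rw [BB_congr (z' := x) fun i hi => (a2 i (by omega)).symm] at hv
        exact (hx k (by omega)).2 hv
      · have c1 : m ≤ d := not_lt.1 fun hd => b4.2.ne (b3 d hd)
        have c2 := b2 d c1
        have c3 := (hx d (by omega)).1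
        exact b4.2.not_gt (hl (r d) (x d) (by omega))
      · exact hS (b4.1 ▸ hr.1 :)
    · obtain ⟨-, a, -⟩ := btw e a2
      exact a.not_ge p.nn
  · obtain ⟨v, hv, a2, a3⟩ := h1.exists_subset_of_mem_open (a := o D r)
      (u := Iio (b hr 1 zero_le_one)) (lt_iff.2 (Or.inr ⟨rfl, zero_lt_one⟩)) isOpen_Iio
    rcases hv.1 with ⟨z, k, rfl⟩ | ⟨p, p', e, rfl⟩
    · rcases a2 with a2 | ⟨r', hr', m, b1, b2, b3, ⟨d, b4⟩ | b4⟩
      · exact lt_irrefl _ (mem_Iio.1 (a3 (a := b hr 1 zero_le_one) (Or.inl a2)))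
      · have c1 : o D r' < b hr 1 zero_le_one := a3 (Or.inr ⟨r', hr', m, b1, b2, fun _ _ => rfl,
          Or.inr ⟨rfl, by simp only [o]; positivity⟩⟩)
        exact c1.not_gt (lt_iff.2 (Or.inl ⟨d, b4⟩))
      · obtain rfl : r = r' := b4.1
        rw [BB_congr hr'.2.2] at hv
        exact h k hr'.2.1 hv.2
    · obtain ⟨-, a, -⟩ := btw e a2
      exact a.not_ge p.nn

theorem inj_ex : ∃ e : (ℕ → ℕᵒᵈ ×ₗ ℝ) → ℝ, Injective e := by
  refine (Cardinal.lift_mk_le'.1 ?_).elim fun e => ⟨e, e.2⟩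
  have : Cardinal.mk (ℕᵒᵈ ×ₗ ℝ) = Cardinal.continuum := by
    rw [show Cardinal.mk (ℕᵒᵈ ×ₗ ℝ) = Cardinal.mk (ℕ × ℝ) from rfl]
    simp [Cardinal.mk_real]
  simp [this, Cardinal.mk_real]

/-- data on the ordered alphabet -/
noncomputable def D1 : Dat (ℕᵒᵈ ×ₗ ℝ) where
  lab c := OrderDual.ofDual (ofLex c).1
  fl c := (ofLex c).2 < 0
  pt n r := toLex (OrderDual.toDual n, Real.exp (inj_ex.choose r))
  g n := toLex (OrderDual.toDual n, -1)
  lab_pt := by simp
  fl_pt n r := by simpa using (Real.exp_pos _).le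
  inj n r n' r' h := inj_ex.choose_spec
    (Real.exp_injective (congrArg Prod.snd (toLex.injective h)))
  lab_g := by simp
  fl_g := by simp

theorem D1_lt : ∀ c c', D1.lab c' < D1.lab c → c < c' :=
  fun _ _ h => Prod.Lex.lt_iff.2 (Or.inl h)

end Pool.Agent.H.MP_14c6b5
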